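import Mathlib
import Pool.Agent.H361R2.PA.PreMod
import Pool.Agent.H398R2.RK.Surv

/-!
# MP_b454d1_nt (Goldbach–Knjzek–Rivera): the Goldbach primes above `√N` can come late

For every real `θ > 0` there is `c > 0` such that for all large `X` there is an even `N ∈ [X, 2X]`
such that no prime `p` with `θ√N < p ≤ θ√N + c (log N)² log log N` has `N - p` prime.

The proof chooses a window `(M, M + Y]` just above `θ√X` with at most the average number of primes
and covers the set of the numbers `N - p`, `p` prime in the window, by small prime divisors, with the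
covering engine `Pool.Agent.H361R2.PA.arbitrary_mod`.
-/

set_option autoImplicit false
set_option maxHeartbeats 4000000

open Finset Filter

namespace Pool.Agent.Results.MP_b454d1_nt.LateGoldbachPrime

/-- number of primes up to `n` -/
noncomputable def P (n : ℕ) : ℝ := (((Icc 1 n).filter Nat.Prime).card : ℝ)

lemma P_nonneg (n : ℕ) : 0 ≤ P n := by unfold P; positivity

lemma block (a b : ℕ) (h : a ≤ b) : (((Ioc a b).filter Nat.Prime).card : ℝ) = P b - P a := by
  have h1 : (Icc 1 b).filter Nat.Prime =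
      (Icc 1 a).filter Nat.Prime ∪ (Ioc a b).filter Nat.Prime := by
    ext p
    simp only [mem_filter, mem_Icc, mem_union, mem_Ioc]
    constructor
    · rintro ⟨⟨h1, h2⟩, hp⟩
      by_cases h3 : p ≤ a
      · exact Or.inl ⟨⟨h1, h3⟩, hp⟩
      · exact Or.inr ⟨⟨by omega, h2⟩, hp⟩
    · rintro (⟨⟨h1, h2⟩, hp⟩ | ⟨⟨h1, h2⟩, hp⟩)
      · exact ⟨⟨h1, by omega⟩, hp⟩
      · exact ⟨⟨by omega, h2⟩, hp⟩
  have h2 : Disjoint ((Icc 1 a).filter Nat.Prime) ((Ioc a b).filter Nat.Prime) := by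
    rw [Finset.disjoint_left]
    intro p hp hq
    simp only [mem_filter, mem_Icc, mem_Ioc] at hp hq
    omega
  unfold P
  rw [h1, card_union_of_disjoint h2]
  push_cast
  ring

/-- a block with few primes -/
lemma exists_block (B Y K : ℕ) (hK : 0 < K) (T : ℝ) (hT : P (B + K * Y) ≤ T) :
    ∃ j < K, (((Ioc (B + j * Y) (B + j * Y + Y)).filter Nat.Prime).card : ℝ) ≤ T / K := by
  have hsum : ∑ j ∈ range K,
      (((Ioc (B + j * Y) (B + j * Y + Y)).filter Nat.Prime).card : ℝ) ≤
      ∑ _j ∈ range K, T / K := by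
    have h1 : ∀ j ∈ range K,
        (((Ioc (B + j * Y) (B + j * Y + Y)).filter Nat.Prime).card : ℝ) =
        P (B + (j + 1) * Y) - P (B + j * Y) := by
      intro j _
      rw [block _ _ (by omega)]
      congr 2
      ring
    rw [Finset.sum_congr rfl h1, Finset.sum_range_sub (fun j => P (B + j * Y))]
    rw [Finset.sum_const, card_range, nsmul_eq_mul, mul_div_cancel₀ _ (by positivity)]
    have := P_nonneg (B + 0 * Y)
    linarith
  obtain ⟨j, hj, h⟩ := Finset.exists_le_of_sum_le ⟨0, by simpa using hK⟩ hsum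
  exact ⟨j, by simpa using hj, h⟩

/-- the asymptotic conditions on `X` -/
lemma evt (θ c : ℝ) (hθ : 0 < θ) (hc : 0 < c) (X₁ : ℝ) : ∃ X₀ : ℝ, ∀ X : ℝ, X₀ ≤ X →
    X₁ ≤ θ * Real.sqrt X ∧ 1000 ≤ Real.log X ∧ 1 ≤ Real.log (Real.log X) ∧
    Real.log X / 4 ≤ Real.log (θ * Real.sqrt X) ∧
    θ ^ 2 + 2 ≤ c * ((Real.log X) ^ 2 * Real.log (Real.log X)) ∧
    1000 * c * ((Real.log X) ^ 2 * Real.log (Real.log X)) + 10 * θ ^ 2 + 1000
      ≤ θ * Real.sqrt X := by
  have hL : Tendsto Real.log atTop atTop := Real.tendsto_log_atTop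
  have hLL : Tendsto (fun X => Real.log (Real.log X)) atTop atTop := hL.comp hL
  have hsq : Tendsto Real.sqrt atTop atTop := Real.tendsto_sqrt_atTop
  have hθsq : Tendsto (fun X => θ * Real.sqrt X) atTop atTop := hsq.const_mul_atTop hθ
  have e1 := hθsq.eventually_ge_atTop X₁
  have e2 := hL.eventually_ge_atTop (1000 : ℝ)
  have e3 := hLL.eventually_ge_atTop (1 : ℝ)
  have e4 := hL.eventually_ge_atTop (-4 * Real.log θ)
  have e5 : ∀ᶠ X in atTop, (θ ^ 2 + 2) / c ≤ Real.log X := hL.eventually_ge_atTop _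
  -- `log^3` is small compared to the square root
  have h6 : (fun x : ℝ => Real.log x ^ 3) =o[atTop] (id : ℝ → ℝ) := Real.isLittleO_pow_log_id_atTop
  have h7 := (h6.comp_tendsto hsq).bound (c := θ / (16 * 1000 * c)) (by positivity)
  have e8 := hθsq.eventually_ge_atTop (2 * (10 * θ ^ 2 + 1000))
  have e9 : ∀ᶠ X : ℝ in atTop, (1 : ℝ) ≤ X := eventually_ge_atTop 1
  obtain ⟨X₀, h⟩ := eventually_atTop.1
    ((e1.and e2).and ((e3.and e4).and ((e5.and h7).and (e8.and e9))))
  refine ⟨X₀, fun X hX => ?_⟩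
  obtain ⟨⟨h1, h2⟩, ⟨h3, h4⟩, ⟨h5, h7⟩, h8, h9⟩ := h X hX
  have hX0 : 0 < X := by linarith
  have hLs : Real.log (Real.sqrt X) = Real.log X / 2 := Real.log_sqrt hX0.le
  have hLL1 : Real.log (Real.log X) ≤ Real.log X :=
    (Real.log_le_sub_one_of_pos (by linarith)).trans (by linarith)
  refine ⟨h1, h2, h3, ?_, ?_, ?_⟩
  · rw [Real.log_mul hθ.ne' (Real.sqrt_pos.2 hX0).ne', hLs]
    linarith
  · rw [div_le_iff₀ hc] at h5
    have h10 : Real.log X ≤ (Real.log X) ^ 2 * Real.log (Real.log X) := by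
      nlinarith [mul_nonneg (by linarith : (0:ℝ) ≤ Real.log X)
        (by linarith : (0:ℝ) ≤ Real.log X - 1),
        mul_nonneg (sq_nonneg (Real.log X)) (by linarith : (0:ℝ) ≤ Real.log (Real.log X) - 1)]
    calc θ ^ 2 + 2 ≤ Real.log X * c := h5
      _ = c * Real.log X := mul_comm _ _
      _ ≤ _ := mul_le_mul_of_nonneg_left h10 hc.le
  · simp only [Function.comp, id, Real.norm_eq_abs] at h7
    rw [hLs, abs_of_nonneg (Real.sqrt_nonneg X), abs_of_nonneg (by positivity)] at h7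
    have h10 : (Real.log X) ^ 2 * Real.log (Real.log X) ≤ (Real.log X) ^ 3 := by
      have := mul_le_mul_of_nonneg_left hLL1 (sq_nonneg (Real.log X))
      calc _ ≤ (Real.log X) ^ 2 * Real.log X := this
        _ = _ := by ring
    have h11 : 1000 * c * (Real.log X) ^ 3 ≤ θ * Real.sqrt X / 2 := by
      have h12 : (Real.log X / 2) ^ 3 = (Real.log X) ^ 3 / 8 := by ring
      rw [h12] at h7
      have h13 := mul_le_mul_of_nonneg_left h7 (by positivity : (0:ℝ) ≤ 8 * 1000 * c)
      have h14 : 8 * 1000 * c * (θ / (16 * 1000 * c) * Real.sqrt X) = θ * Real.sqrt X / 2 := by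
        field_simp
        ring
      rw [h14] at h13
      linarith
    have h15 : 1000 * c * ((Real.log X) ^ 2 * Real.log (Real.log X)) ≤
        1000 * c * (Real.log X) ^ 3 := mul_le_mul_of_nonneg_left h10 (by positivity)
    linarith

/-- **Result.** For every real `θ > 0` there is `c > 0` such that for all large `X` some even
`N ∈ [X, 2X]` has no Goldbach partition `N = p + q` with
`θ √N < p ≤ θ √N + c (log N)^2 log log N`. -/
theorem result : ∀ θ : ℝ, 0 < θ → ∃ c : ℝ, 0 < c ∧ ∃ X₀ : ℝ, ∀ X : ℝ, X₀ ≤ X →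
    ∃ N : ℕ, Even N ∧ X ≤ N ∧ (N : ℝ) ≤ 2 * X ∧
      ∀ p : ℕ, p.Prime → θ * Real.sqrt N < p →
        (p : ℝ) ≤ θ * Real.sqrt N + c * ((Real.log N) ^ 2 * Real.log (Real.log N)) →
        ¬ (N - p).Prime := by
  intro θ hθ
  obtain ⟨c₀, hc₀, X₁, hass⟩ := Pool.Agent.H361R2.PA.arbitrary_mod 2 2 (by norm_num)
  set c : ℝ := c₀ / 200000 with hc
  have hcpos : 0 < c := by positivity
  obtain ⟨X₀, hX₀⟩ := evt θ c hθ hcpos X₁
  refine ⟨c, hcpos, X₀ + 2, fun X hX => ?_⟩
  obtain ⟨g1, g2, g3, g4, g5, g6⟩ := hX₀ X (by linarith)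
  set L := Real.log X with hLdef
  set LL := Real.log L with hLLdef
  set R := θ * Real.sqrt X with hRdef
  set W := L ^ 2 * LL with hWdef
  have hX1 : 1 < X := by
    by_contra h
    push Not at h
    by_cases h0 : 0 < X
    · have := Real.log_nonpos h0.le h
      linarith
    · have hs : Real.sqrt X = 0 := Real.sqrt_eq_zero_of_nonpos (not_lt.1 h0)
      rw [hRdef, hs, mul_zero] at g6
      have : 0 ≤ 1000 * c * W := by positivity
      nlinarith [sq_nonneg θ]
  have hXpos : 0 < X := by linarith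
  have hW0 : 0 < W := by positivity
  have hcW : 0 < c * W := by positivity
  have hθ2 : 0 < θ ^ 2 := by positivity
  have hR1000 : 1000 ≤ R := by nlinarith
  have hRpos : 0 < R := by linarith
  have hlogR : L / 4 ≤ Real.log R := g4
  have hlogR0 : 0 < Real.log R := by linarith
  -- the block length
  set Y : ℕ := ⌈8 * (c * W) + θ ^ 2 + 1⌉₊ with hYdef
  have hY1 : 8 * (c * W) + θ ^ 2 + 1 ≤ Y := Nat.le_ceil _
  have hY2 : (Y : ℝ) ≤ 9 * (c * W) := by
    have := (Nat.ceil_lt_add_one (by positivity : (0:ℝ) ≤ 8 * (c * W) + θ ^ 2 + 1)).le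
    rw [← hYdef] at this
    linarith
  have hYpos : (0 : ℝ) < Y := by linarith
  have hYnat : 0 < Y := by exact_mod_cast hYpos
  -- number of blocks
  set K : ℕ := ⌊R / (10 * Y)⌋₊ with hKdef
  have h20 : 20 * (Y : ℝ) ≤ R := by nlinarith
  have hdiv : 2 ≤ R / (10 * (Y : ℝ)) := by
    rw [le_div_iff₀ (by positivity)]; linarith
  have hK1 : (K : ℝ) ≤ R / (10 * Y) := Nat.floor_le (by positivity)
  have hK2 : R / (10 * Y) - 1 < K := by
    have := Nat.lt_floor_add_one (R / (10 * (Y : ℝ)))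
    rw [← hKdef] at this
    linarith
  have hK3 : R / (20 * Y) ≤ K := by
    have e : R / (20 * (Y : ℝ)) = R / (10 * Y) / 2 := by field_simp; norm_num
    rw [e]; linarith
  have hKpos : (0 : ℝ) < K := lt_of_lt_of_le (by positivity) hK3
  have hKnat : 0 < K := by exact_mod_cast hKpos
  have hKY : (K : ℝ) * Y ≤ R / 10 := by
    have := mul_le_mul_of_nonneg_right hK1 hYpos.le
    have e : R / (10 * (Y : ℝ)) * Y = R / 10 := by field_simp
    rwa [e] at this
  set b : ℕ := ⌈R⌉₊ with hbdef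
  have hb1 : R ≤ b := Nat.le_ceil _
  have hb2 : (b : ℝ) < R + 1 := Nat.ceil_lt_add_one hRpos.le
  -- the prime count
  have hP : P (b + K * Y) ≤ 12 * R / Real.log R := by
    have hn : (2 : ℕ) ≤ b + K * Y := by
      have : (2 : ℝ) ≤ b := by linarith
      have : 2 ≤ b := by exact_mod_cast this
      omega
    have h := Pool.Agent.H398R2.RK.primes_le (b + K * Y) hn
    refine h.trans ?_
    have hcast : ((b + K * Y : ℕ) : ℝ) = b + K * Y := by push_cast; ring
    rw [hcast]
    have h1 : (b : ℝ) + K * Y ≤ 12 / 10 * R := by linarith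
    have h2 : R ≤ (b : ℝ) + K * Y := by
      have : (0 : ℝ) ≤ K * Y := by positivity
      linarith
    have h3 : Real.log R ≤ Real.log ((b : ℝ) + K * Y) := Real.log_le_log hRpos h2
    have h4 : 10 * ((b : ℝ) + K * Y) ≤ 12 * R := by linarith
    gcongr
  obtain ⟨j, hjK, hj⟩ := exists_block b Y K hKnat _ hP
  set M : ℕ := b + j * Y with hMdef
  have hM1 : R ≤ M := by
    have : (b : ℝ) ≤ M := by exact_mod_cast Nat.le_add_right _ _
    linarith
  have hM2 : (M : ℝ) ≤ 12 / 10 * R := by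
    have e : (M : ℝ) = b + j * Y := by rw [hMdef]; push_cast; ring
    have : (j : ℝ) * Y ≤ K * Y := by
      have : (j : ℝ) ≤ K := by exact_mod_cast hjK.le
      gcongr
    rw [e]; linarith
  have hMpos : (0 : ℝ) < M := by linarith
  have hcount : (((Ioc M (M + Y)).filter Nat.Prime).card : ℝ) ≤ 9000 * c * (L * LL) := by
    refine hj.trans ?_
    have h1 : 12 * R / Real.log R / K ≤ 12 * R / (L / 4) / (R / (20 * Y)) := by
      gcongr
    refine h1.trans ?_
    have h2 : 12 * R / (L / 4) / (R / (20 * (Y : ℝ))) = 960 * Y / L := by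
      field_simp
      norm_num
    rw [h2, div_le_iff₀ (by linarith)]
    have h3 : 9000 * c * (L * LL) * L = 9000 * (c * W) := by rw [hWdef]; ring
    rw [h3]
    nlinarith
  -- logarithms of `M`
  have hlogM : L / 4 ≤ Real.log M := hlogR.trans (Real.log_le_log hRpos hM1)
  have hlogM0 : 0 < Real.log M := by linarith
  have hLLM : LL / 2 ≤ Real.log (Real.log M) := by
    have h1 : Real.log (L / 4) ≤ Real.log (Real.log M) :=
      Real.log_le_log (by linarith) hlogM
    have h2 : LL / 2 ≤ Real.log (L / 4) := by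
      rw [hLLdef, ← Real.log_sqrt (by linarith)]
      apply Real.log_le_log (Real.sqrt_pos.2 (by linarith))
      rw [Real.sqrt_le_left (by linarith)]
      nlinarith
    linarith
  -- the set of shifts
  set A : Finset ℤ := ((Ioc M (M + Y)).filter Nat.Prime).image (fun p : ℕ => -(p : ℤ)) with hA
  have hAcard : (A.card : ℝ) ≤ c₀ * (Real.log M * Real.log (Real.log M)) := by
    have h1 : (A.card : ℝ) ≤ (((Ioc M (M + Y)).filter Nat.Prime).card : ℝ) := by
      exact_mod_cast Finset.card_image_le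
    refine h1.trans (hcount.trans ?_)
    have h2 : L / 4 * (LL / 2) ≤ Real.log M * Real.log (Real.log M) := by
      apply mul_le_mul hlogM hLLM (by linarith) hlogM0.le
    have h3 : 9000 * c * (L * LL) ≤ c₀ * (L / 4 * (LL / 2)) := by
      rw [hc]
      have : 0 ≤ c₀ * (L * LL) := by
        have : 0 ≤ L * LL := by nlinarith
        positivity
      nlinarith
    exact h3.trans (mul_le_mul_of_nonneg_left h2 hc₀.le)
  have hYM : (M : ℝ) + Y ≤ 2 * M := by linarith
  have hAb : ∀ a ∈ A, |(a : ℝ)| ≤ Real.exp ((Real.log M) ^ 2) := by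
    intro a ha
    rw [hA, Finset.mem_image] at ha
    obtain ⟨p, hp, rfl⟩ := ha
    have hp2 := (mem_Ioc.1 (mem_filter.1 hp).1).2
    have hp3 : (p : ℝ) ≤ M + Y := by exact_mod_cast hp2
    push_cast
    rw [abs_neg, abs_of_nonneg (Nat.cast_nonneg p)]
    have h1 : (p : ℝ) ≤ (M : ℝ) ^ 2 := by nlinarith
    refine h1.trans ?_
    have h2 : ((M : ℝ)) ^ 2 = Real.exp (2 * Real.log M) := by
      rw [two_mul, Real.exp_add, Real.exp_log hMpos, sq]
    rw [h2]
    apply Real.exp_le_exp.2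
    nlinarith
  obtain ⟨n, hn1, hn2, hn3, hn4⟩ := hass M (by linarith) A hAcard hAb 0 ⌈((M : ℝ) / θ) ^ 2⌉
  have hz1 : ((M : ℝ) / θ) ^ 2 ≤ (⌈((M : ℝ) / θ) ^ 2⌉ : ℤ) := Int.le_ceil _
  have hz2 : ((⌈((M : ℝ) / θ) ^ 2⌉ : ℤ) : ℝ) < ((M : ℝ) / θ) ^ 2 + 1 := Int.ceil_lt_add_one _
  have hnlow : ((M : ℝ) / θ) ^ 2 < n := by linarith
  have hnup : (n : ℝ) ≤ ((M : ℝ) / θ) ^ 2 + 1 + M := by linarith
  have hn0 : (0 : ℝ) < n := lt_of_le_of_lt (sq_nonneg _) hnlow
  have hn0' : 0 ≤ n := by exact_mod_cast hn0.le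
  obtain ⟨N, rfl⟩ := Int.eq_ofNat_of_zero_le hn0'
  simp only [Int.cast_natCast] at hnlow hnup hn0 hn3 hn4
  have hNR : X ≤ N := by
    have h1 : (R / θ) ^ 2 ≤ ((M : ℝ) / θ) ^ 2 := by gcongr
    have h2 : (R / θ) ^ 2 = X := by
      rw [hRdef, mul_div_cancel_left₀ _ hθ.ne', Real.sq_sqrt hXpos.le]
    rw [h2] at h1
    linarith
  -- `θ √N` is just above `M`
  have hs1 : (M : ℝ) < θ * Real.sqrt N := by
    have h1 : (M : ℝ) / θ < Real.sqrt N := by
      rw [Real.lt_sqrt (by positivity)]; exact hnlow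
    rw [div_lt_iff₀ hθ] at h1
    linarith
  have hs2 : θ * Real.sqrt N ≤ M + θ ^ 2 := by
    have h1 : (θ * Real.sqrt N) ^ 2 ≤ (M + θ ^ 2) ^ 2 := by
      rw [mul_pow, Real.sq_sqrt hn0.le]
      have h2 : θ ^ 2 * (N : ℝ) ≤ θ ^ 2 * (((M : ℝ) / θ) ^ 2 + 1 + M) := by gcongr
      have h3 : θ ^ 2 * (((M : ℝ) / θ) ^ 2 + 1 + M) = (M : ℝ) ^ 2 + θ ^ 2 * (1 + M) := by
        field_simp
        ring
      nlinarith [mul_pos hθ2 hMpos]
    exact (pow_le_pow_iff_left₀ (by positivity) (by positivity) (by norm_num)).1 h1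
  have hN2 : (N : ℝ) ≤ 2 * X := by
    have h1 : θ * Real.sqrt N ≤ 14 / 10 * R := by linarith
    have h2 : Real.sqrt N ≤ 14 / 10 * Real.sqrt X := by
      rw [hRdef] at h1
      have : θ * Real.sqrt N ≤ θ * (14 / 10 * Real.sqrt X) := by linarith
      exact le_of_mul_le_mul_left this hθ
    have h3 : (Real.sqrt N) ^ 2 ≤ (14 / 10 * Real.sqrt X) ^ 2 := by gcongr
    rw [Real.sq_sqrt hn0.le, mul_pow, Real.sq_sqrt hXpos.le] at h3
    linarith
  refine ⟨N, ?_, hNR, hN2, ?_⟩
  · have h := hn3 2 Nat.prime_two (dvd_refl 2)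
    rw [sub_zero] at h
    have h2 : (2 : ℤ) ∣ (N : ℤ) := by exact_mod_cast h
    exact even_iff_two_dvd.2 (by exact_mod_cast h2)
  · intro p hp hp1 hp2 hq
    -- the window for `N ≤ 2X`
    have hlogN : Real.log N ≤ 2 * L := by
      have h1 : Real.log N ≤ Real.log (2 * X) := Real.log_le_log hn0 hN2
      rw [Real.log_mul (by norm_num) hXpos.ne'] at h1
      have := Real.log_two_lt_d9
      linarith
    have hlogN1 : L ≤ Real.log N := Real.log_le_log hXpos hNR
    have hLLN : Real.log (Real.log N) ≤ 2 * LL := by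
      have h1 : Real.log (Real.log N) ≤ Real.log (2 * L) := Real.log_le_log (by linarith) hlogN
      rw [Real.log_mul (by norm_num) (by linarith)] at h1
      have := Real.log_two_lt_d9
      linarith
    have hLLN0 : 0 ≤ Real.log (Real.log N) := Real.log_nonneg (by linarith)
    have hwin : c * ((Real.log N) ^ 2 * Real.log (Real.log N)) ≤ 8 * (c * W) := by
      have h1 : (Real.log N) ^ 2 ≤ (2 * L) ^ 2 := by
        apply pow_le_pow_left₀ (by linarith) hlogN
      have h2 : (Real.log N) ^ 2 * Real.log (Real.log N) ≤ (2 * L) ^ 2 * (2 * LL) :=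
        mul_le_mul h1 hLLN hLLN0 (by positivity)
      have h3 : (2 * L) ^ 2 * (2 * LL) = 8 * W := by rw [hWdef]; ring
      rw [h3] at h2
      have := mul_le_mul_of_nonneg_left h2 hcpos.le
      linarith
    have hpM : M < p := by
      have : (M : ℝ) < p := hs1.trans hp1
      exact_mod_cast this
    have hpMY : p ≤ M + Y := by
      have : (p : ℝ) ≤ M + Y := by linarith
      exact_mod_cast this
    have hmem : -(p : ℤ) ∈ A := by
      rw [hA, Finset.mem_image]
      exact ⟨p, mem_filter.2 ⟨mem_Ioc.2 ⟨hpM, hpMY⟩, hp⟩, rfl⟩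
    apply hn4 _ hmem
    have hlt : p ≤ N := by
      by_contra h
      push Not at h
      rw [Nat.sub_eq_zero_of_le h.le] at hq
      exact Nat.not_prime_zero hq
    have h1 := Nat.prime_iff_prime_int.1 hq
    rw [Nat.cast_sub hlt] at h1
    rwa [← sub_eq_add_neg]

end Pool.Agent.Results.MP_b454d1_nt.LateGoldbachPrime
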